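import Mathlib
import Pool.Agent.TH202.Defs

/-!
# Complete normal varieties, and models that are not necessarily projective

A projective variety with function field `K` is a `Model K` (see `Pool.Agent.TH202.Defs`). In this
file we define complete normal varieties with a given function field, and we say what it means that
a generalized pair has a model `Y` that is a normal proper algebraic space (a normal Moishezon
space) with function field `K`. Such a space is the quotient of a normal complete variety `Y'`, with
function field a finite Galois extension `L` of `K`, by the Galois group.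
-/

set_option autoImplicit false

namespace Pool.Agent.R888.Moi

open Pool.Agent.H436R3.Fol Pool.Agent.TH202

/-- A normal complete variety with function field `L`: finitely many normal affine charts `Spec R_i`
with function field `L`, such that every valuation ring of `L` over `ℂ` contains the coordinate ring
of one of the charts (properness), and such that the local rings of two charts at the centres of the
same valuation ring agree (separatedness). -/
structure CompleteVar (L : Type) [Field L] [Algebra ℂ L] where
  m : ℕ
  chart : Fin m → NormalAffine L
  proper : ∀ V : ValuationSubring L, (∀ z : ℂ, algebraMap ℂ L z ∈ V) →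
    ∃ i, ∀ f ∈ (chart i).R, f ∈ V
  separated : ∀ (V : ValuationSubring L) (i j : Fin m), (∀ f ∈ (chart i).R, f ∈ V) →
    (∀ f ∈ (chart j).R, f ∈ V) → ∀ f ∈ (chart i).R,
      ∃ a b : L, a ∈ (chart j).R ∧ b ∈ (chart j).R ∧ b ≠ 0 ∧ b⁻¹ ∈ V ∧ f * b = a

/-- The element `f` of the function field lies in the local ring of the affine variety `A` at the
point given by the prime ideal `p`. -/
def Mem {L : Type} [Field L] [Algebra ℂ L] (A : NormalAffine L) (p : Ideal A.R) (f : L) : Prop :=
  ∃ s : A.R, s ∉ p ∧ (s : L) * f ∈ A.R

/-- The centre of the valuation `v` on the affine variety `A` contains the point given by the prime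
ideal `p`. -/
def Thr {L : Type} [Field L] [Algebra ℂ L] (A : NormalAffine L) (p : Ideal A.R) (v : DVal L) :
    Prop :=
  ∀ f, Mem A p f → v.Reg f

/-- The valuation `v'` of the extension `L` of `K` lies over the valuation `v` of `K`, with
ramification index `e`. -/
def LiesOver {K L : Type} [Field K] [Algebra ℂ K] [Field L] [Algebra ℂ L] [Algebra K L]
    (v' : DVal L) (v : DVal K) (e : ℕ) : Prop :=
  0 < e ∧ ∀ f : K, f ≠ 0 → v'.ord (algebraMap K L f) = e * v.ord f

variable {K L : Type} [Field K] [Algebra ℂ K] [Field L] [Algebra ℂ L] [Algebra K L]

/-- The valuation `w` of `K` is the restriction of (a multiple of) the valuation of a prime divisor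
of the complete variety `Y'` with function field `L`. If `Y = Y' / Gal (L / K)`, this says that `w` is
the valuation of a prime divisor on `Y`. -/
def IsPrimeBelow (Y : CompleteVar L) (w : DVal K) : Prop :=
  ∃ (w' : DVal L) (e : ℕ), LiesOver w' w e ∧ ∃ i, IsLocalRing' (Y.chart i).R w'

/-- The pull-back to the complete variety `Y'` with function field `L` of the b-divisor `D` of `K`
is the b-divisor of an `ℝ`-Cartier divisor on `Y'`. If `Y = Y' / Gal (L / K)`, this says that `D` is
the b-divisor of an `ℝ`-Cartier divisor on `Y`. -/
def IsRCarBelow (Y : CompleteVar L) (D : DVal K → ℝ) : Prop :=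
  ∀ (i : Fin Y.m) (p : Ideal (Y.chart i).R), p.IsPrime → ∃ P ∈ Prin L,
    ∀ (v' : DVal L) (v : DVal K) (e : ℕ), LiesOver v' v e → Thr (Y.chart i) p v' →
      e * D v = P v'

/-- `Y = Y' / Gal (L / K)`, a normal proper algebraic space with function field `K`, is a weak log
canonical model of the generalized pair `(X, B + β)`, where `K_X + B + β_X` has the b-divisor `D`:
the bimeromorphic map `X ⇢ Y` does not extract divisors, `K_Y + B + β_Y` is `ℝ`-Cartier, with
b-divisor `E`, the divisor `E` is nef (on some projective variety), and the log discrepancies of the
contracted prime divisors do not decrease. -/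
def IsWeakModelBelow {d : ℕ} (T : Foliation K d) (X : Model K) (B β D : DVal K → ℝ)
    (Y : CompleteVar L) (E : DVal K → ℝ) : Prop :=
  (∀ w, IsPrimeBelow Y w → IsPrimeOn X w) ∧
  (IsRCarBelow Y E ∧ ∀ w, IsPrimeBelow Y w → ∀ n : ℤ, IsCanOrd T w n → E w = n + B w + β w) ∧
  (∃ W : Model K, IsNef W E) ∧
  ∀ w, IsPrimeOn X w → ¬ IsPrimeBelow Y w → E w ≤ D w

end Pool.Agent.R888.Moi
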