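import Mathlib
import Pool.Agent.R888.Moi.Defs
import Pool.Agent.TH202.RL
import Pool.Agent.TH969.C8_EXT

/-!
# Points of normal affine varieties: local rings, centres, Hartogs
-/

set_option autoImplicit false

namespace Pool.Agent.R888.Moi

open Pool.Agent.H436R3.Fol Pool.Agent.TH202

variable {L : Type} [Field L] [Algebra ℂ L] {A : NormalAffine L} {p : Ideal A.R}

theorem one_notMem (hp : p.IsPrime) : (1 : A.R) ∉ p := fun h =>
  hp.ne_top ((Ideal.eq_top_iff_one _).2 h)

theorem coe_ne {s : A.R} (hs : s ∉ p) : (s : L) ≠ 0 := by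
  intro h0
  apply hs
  have : s = 0 := Subtype.ext h0
  rw [this]
  exact p.zero_mem

theorem mem_of_R (hp : p.IsPrime) {f : L} (hf : f ∈ A.R) : Mem A p f :=
  ⟨1, one_notMem hp, by rw [OneMemClass.coe_one, one_mul]; exact hf⟩

theorem mem_mul (hp : p.IsPrime) {f g : L} (hf : Mem A p f) (hg : Mem A p g) :
    Mem A p (f * g) := by
  obtain ⟨s, hs, hf⟩ := hf
  obtain ⟨t, ht, hg⟩ := hg
  refine ⟨s * t, fun h => (hp.mem_or_mem h).elim hs ht, ?_⟩
  have h1 : ((s * t : A.R) : L) * (f * g) = ((s : L) * f) * ((t : L) * g) := by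
    push_cast
    ring
  rw [h1]
  exact mul_mem hf hg

theorem mem_add (hp : p.IsPrime) {f g : L} (hf : Mem A p f) (hg : Mem A p g) :
    Mem A p (f + g) := by
  obtain ⟨s, hs, hf⟩ := hf
  obtain ⟨t, ht, hg⟩ := hg
  refine ⟨s * t, fun h => (hp.mem_or_mem h).elim hs ht, ?_⟩
  have h1 : ((s * t : A.R) : L) * (f + g) = (t : L) * ((s : L) * f) + (s : L) * ((t : L) * g) := by
    push_cast
    ring
  rw [h1]
  exact add_mem (mul_mem t.2 hf) (mul_mem s.2 hg)

theorem mem_inv {s : A.R} (hs : s ∉ p) : Mem A p (s : L)⁻¹ := by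
  refine ⟨s, hs, ?_⟩
  rw [mul_inv_cancel₀ (coe_ne hs)]
  exact one_mem _

/-- The local ring at a point. -/
def loc (hp : p.IsPrime) : Subalgebra ℂ L where
  carrier := {f | Mem A p f}
  mul_mem' := mem_mul hp
  add_mem' := mem_add hp
  algebraMap_mem' := fun c => mem_of_R hp (A.R.algebraMap_mem c)

theorem mem_loc (hp : p.IsPrime) {f : L} : f ∈ loc hp ↔ Mem A p f := Iff.rfl

theorem thr_iff (hp : p.IsPrime) (v : DVal L) :
    Thr A p v ↔ (∀ f ∈ A.R, v.Reg f) ∧ ∀ s : A.R, v.Pos (s : L) → s ∈ p := by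
  constructor
  · intro h
    refine ⟨fun f hf => h f (mem_of_R hp hf), fun s hs => ?_⟩
    by_contra hsp
    have h1 := h _ (mem_inv hsp)
    have h0 : (s : L) ≠ 0 := coe_ne hsp
    have h2 := hs.resolve_left h0
    have h3 := h1.resolve_left (inv_ne_zero h0)
    rw [v.ord_inv h0] at h3
    omega
  · rintro ⟨h1, h2⟩ f ⟨s, hs, hf⟩
    have h0 : (s : L) ≠ 0 := coe_ne hs
    by_cases hf0 : f = 0
    · left; exact hf0
    right
    have h3 := (h1 _ hf).resolve_left (mul_ne_zero h0 hf0)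
    rw [v.map_mul _ _ h0 hf0] at h3
    have h4 : ¬ v.Pos (s : L) := fun h => hs (h2 s h)
    have h5 : ¬ 0 < v.ord (s : L) := fun h => h4 (Or.inr h)
    omega

/-- Every valuation has a centre on a complete variety. -/
theorem exists_cen (Y : CompleteVar L) (v : DVal L) :
    ∃ (i : Fin Y.m) (p : Ideal (Y.chart i).R), p.IsPrime ∧ Thr (Y.chart i) p v ∧
      ∀ s : (Y.chart i).R, s ∈ p ↔ v.Pos (s : L) := by
  obtain ⟨i, hi⟩ := Y.proper (VS v) fun z => v.reg_const z
  have h : ∀ f ∈ (Y.chart i).R, v.Reg f := fun f hf => hi f hf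
  refine ⟨i, cenIdeal v _ h, cenIdeal_prime v _ h, ?_, fun s => Iff.rfl⟩
  rw [thr_iff (cenIdeal_prime v _ h)]
  exact ⟨h, fun s hs => hs⟩

theorem exists_denom (hp : p.IsPrime) (s : Finset L) (hs : ∀ f ∈ s, Mem A p f) :
    ∃ t : A.R, t ∉ p ∧ ∀ f ∈ s, (t : L) * f ∈ A.R := by
  classical
  induction s using Finset.induction_on with
  | empty => exact ⟨1, one_notMem hp, fun f hf => absurd hf (Finset.notMem_empty f)⟩
  | insert a s _ ih =>
    obtain ⟨t, ht, h⟩ := ih fun f hf => hs f (Finset.mem_insert_of_mem hf)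
    obtain ⟨u, hu, h'⟩ := hs a (Finset.mem_insert_self a s)
    refine ⟨t * u, fun h1 => (hp.mem_or_mem h1).elim ht hu, fun f hf => ?_⟩
    rcases Finset.mem_insert.1 hf with rfl | hf
    · have : ((t * u : A.R) : L) * f = (t : L) * ((u : L) * f) := by push_cast; ring
      rw [this]
      exact mul_mem t.2 h'
    · have : ((t * u : A.R) : L) * f = (u : L) * ((t : L) * f) := by push_cast; ring
      rw [this]
      exact mul_mem u.2 (h f hf)

theorem mem_R_of_root (q : Polynomial L) (hq : q.Monic)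
    (h : ∀ j, q.coeff j ∈ A.R) {u : L} (hu : q.eval u = 0) : u ∈ A.R := by
  apply A.normal
  have hs : (q.coeffs : Set L) ⊆ A.R.toSubring := by
    intro y hy
    rw [Finset.mem_coe, Polynomial.mem_coeffs_iff] at hy
    obtain ⟨j, _, rfl⟩ := hy
    exact h j
  refine ⟨q.toSubring A.R.toSubring hs, (Polynomial.monic_toSubring q _ hs).2 hq, ?_⟩
  have h1 : (q.toSubring A.R.toSubring hs).map (algebraMap A.R.toSubring L) = q := by
    ext j
    rw [Polynomial.coeff_map]
    exact Polynomial.coeff_toSubring _ _ _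
  have h2 : Polynomial.eval₂ (algebraMap A.R.toSubring L) u
      (q.toSubring A.R.toSubring hs) = 0 := by
    rw [← Polynomial.eval_map, h1]
    exact hu
  exact h2

theorem mem_of_root' (hp : p.IsPrime) (q : Polynomial L) (hq : q.Monic)
    (h : ∀ j, Mem A p (q.coeff j)) {u : L} (hu : q.eval u = 0) : Mem A p u := by
  obtain ⟨t, ht, h'⟩ := exists_denom hp q.coeffs fun f hf => by
    rw [Polynomial.mem_coeffs_iff] at hf
    obtain ⟨j, _, rfl⟩ := hf
    exact h j
  refine ⟨t, ht, ?_⟩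
  refine mem_R_of_root (q.scaleRoots (t : L)) (by rw [Polynomial.monic_scaleRoots_iff]; exact hq)
    (fun j => ?_) ?_
  · rw [Polynomial.coeff_scaleRoots]
    by_cases hj0 : q.coeff j = 0
    · rw [hj0, zero_mul]
      exact zero_mem _
    have hj1 : q.coeff j ∈ q.coeffs := Polynomial.coeff_mem_coeffs hj0
    have hj2 : j ≤ q.natDegree := Polynomial.le_natDegree_of_ne_zero hj0
    rcases hj2.eq_or_lt with rfl | hj3
    · rw [Nat.sub_self, pow_zero, mul_one, hq.coeff_natDegree]
      exact one_mem _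
    · obtain ⟨k, hk⟩ := Nat.exists_eq_add_of_lt hj3
      have : q.natDegree - j = k + 1 := by omega
      rw [this, pow_succ, mul_comm, mul_assoc]
      exact mul_mem (pow_mem t.2 _) (h' _ hj1)
  · rw [Polynomial.scaleRoots_eval_mul, hu, mul_zero]

/-- A real principal divisor that is effective near a point has nonnegative order at all
valuations through the point. -/
theorem real_hartogs (hp : p.IsPrime) {P : DVal L → ℝ} (hP : P ∈ Prin L)
    (h : ∀ w, IsLocalRing' A.R w → Thr A p w → 0 ≤ P w) (v : DVal L) (hv : Thr A p v) :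
    0 ≤ P v := by
  obtain ⟨m, r, g, hg, hPv⟩ := exists_rep hP
  rw [hPv]
  have hmain := Pool.Agent.TH84.C8_CONE.cone_approx
    (ι := {w : DVal L // IsLocalRing' A.R w ∧ Thr A p w})
    (fun w i => w.1.ord (g i)) ?_ (fun i => v.ord (g i)) ?_ r ?_
  · calc (0 : ℝ) ≤ ∑ i, ((v.ord (g i) : ℤ) : ℝ) * r i := hmain
      _ = ∑ i, r i * (v.ord (g i) : ℝ) := Finset.sum_congr rfl fun i _ => mul_comm _ _
  · -- finiteness
    choose Z hZ hZ' using fun i => Pool.Agent.TH670.C8_HARTP.finite_ord_ne A.fg A.frac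
      A.normal (g i) (hg i)
    have hfin : (insert (0 : Fin m → ℤ) ((fun (w : DVal L) (i : Fin m) => w.ord (g i)) ''
        (⋃ i, Z i))).Finite :=
      ((Set.finite_iUnion hZ).image _).insert _
    refine hfin.subset ?_
    rintro _ ⟨w, rfl⟩
    by_cases h0 : ∀ i, w.1.ord (g i) = 0
    · left
      funext i
      exact h0 i
    · push Not at h0
      obtain ⟨i, hi⟩ := h0
      obtain ⟨z, hz, hwz⟩ := hZ' i w.1 w.2.1 hi
      right
      refine ⟨z, Set.mem_iUnion.2 ⟨i, hz⟩, ?_⟩
      funext j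
      exact (hwz _ (hg j)).symm
  · intro e he
    have hord : ∀ u : DVal L, u.ord (∏ i, g i ^ e i) = ∑ i, u.ord (g i) * e i := by
      intro u
      rw [u.ord_prod _ _ fun i _ => zpow_ne_zero _ (hg i)]
      refine Finset.sum_congr rfl fun i _ => ?_
      rw [u.ord_zpow (hg i), mul_comm]
    have hF0 : ∏ i, g i ^ e i ≠ 0 := Finset.prod_ne_zero_iff.2 fun i _ => zpow_ne_zero _ (hg i)
    have hF : Mem A p (∏ i, g i ^ e i) := by
      refine Pool.Agent.TH670.C8_HARTP.hartogs_local A.fg A.frac A.normal p hp ?_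
      intro w hw hwx
      right
      rw [hord w]
      refine he ⟨w, hw, ?_⟩
      rw [thr_iff hp]
      exact ⟨hw.1, hwx⟩
    have h1 := (hv _ hF).resolve_left hF0
    rwa [hord v] at h1
  · intro w
    have := h w.1 w.2.1 w.2.2
    rw [hPv] at this
    calc (0 : ℝ) ≤ ∑ i, r i * (w.1.ord (g i) : ℝ) := this
      _ = ∑ i, ((w.1.ord (g i) : ℤ) : ℝ) * r i := Finset.sum_congr rfl fun i _ => mul_comm _ _

end Pool.Agent.R888.Moi
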