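import Mathlib
import Pool.Agent.R888.Moi.Loc
import Pool.Agent.TH202.Dom

/-!
# Domination of nef divisors by divisors on complete varieties
-/

set_option autoImplicit false

namespace Pool.Agent.R888.Moi

open Pool.Agent.H436R3.Fol Pool.Agent.TH202

variable {K L : Type} [Field K] [Algebra ℂ K] [Field L] [Algebra ℂ L] [Algebra K L]

theorem am_ne {f : K} (hf : f ≠ 0) : algebraMap K L f ≠ 0 :=
  (map_ne_zero_iff _ (algebraMap K L).injective).2 hf

/-- The pull-back of a real principal divisor. -/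
theorem prin_ext {P : DVal K → ℝ} (hP : P ∈ Prin K) : ∃ P' ∈ Prin L,
    ∀ (v' : DVal L) (v : DVal K) (e : ℕ), LiesOver v' v e → P' v' = e * P v := by
  obtain ⟨m, r, g, hg, hPv⟩ := exists_rep hP
  refine ⟨∑ i, r i • dv (algebraMap K L (g i)), sum_mem fun i _ =>
    (Prin L).smul_mem _ (dv_mem (am_ne (hg i))), fun v' v e he => ?_⟩
  rw [Finset.sum_apply, hPv, Finset.mul_sum]
  refine Finset.sum_congr rfl fun i _ => ?_
  rw [Pi.smul_apply, smul_eq_mul, dv, he.2 _ (hg i)]
  push_cast
  ring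

theorem Lin_scale {m : ℕ} (f : Fin (m + 1) → K) (hf : ∀ j, f j ≠ 0) {v' : DVal L} {v : DVal K}
    {e : ℕ} (he : LiesOver v' v e) : e * Lin f v = Lin (fun j => algebraMap K L (f j)) v' := by
  have he0 : (0 : ℝ) < e := by exact_mod_cast he.1
  obtain ⟨j, hj⟩ := exists_Lin f v
  obtain ⟨k, hk⟩ := exists_Lin (fun j => algebraMap K L (f j)) v'
  apply le_antisymm
  · rw [hj]
    have h1 := Lin_le (fun j => algebraMap K L (f j)) v' j
    simp only [he.2 _ (hf j)] at h1
    push_cast at h1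
    linarith
  · rw [hk, he.2 _ (hf k)]
    have h1 := mul_le_mul_of_nonneg_left (Lin_le f v k) he0.le
    push_cast
    linarith

variable [IsScalarTower ℂ K L] [FiniteDimensional K L]

/-- A nef divisor is dominated by a divisor that is `ℝ`-Cartier on (a quotient of) a complete
variety, if this holds on the prime divisors of that space. -/
theorem dom' {X : Model K} {Y : CompleteVar L} {N D : DVal K → ℝ} (hN : IsNef X N)
    (hD : IsRCarBelow Y D) (h : ∀ w, IsPrimeBelow Y w → N w ≤ D w) (v : DVal K) : N v ≤ D v := by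
  obtain ⟨v', e, he, hv'⟩ := Pool.Agent.TH969.C8_EXT.exists_ext (Ω := L) v
  have hover : LiesOver v' v e := ⟨he, hv'⟩
  have he0 : (0 : ℝ) < e := by exact_mod_cast he
  obtain ⟨i, p, hp, hthr, -⟩ := exists_cen Y v'
  obtain ⟨P0, hP0, hP0D⟩ := hD i p hp
  set A := Y.chart i with hA
  -- a common denominator
  choose a b ha hb hb0 hab using fun j => A.frac (algebraMap K L (X.ξ j) / algebraMap K L (X.ξ 0))
  have hH0 : ∏ k, b k ≠ 0 := Finset.prod_ne_zero_iff.2 fun k _ => hb0 k
  have hx0 : algebraMap K L (X.ξ 0) ≠ 0 := am_ne (X.ne 0)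
  have hmem : ∀ j, algebraMap K L (X.ξ j) / algebraMap K L (X.ξ 0) * ∏ k, b k ∈ A.R := by
    intro j
    rw [← Finset.mul_prod_erase Finset.univ b (Finset.mem_univ j), ← mul_assoc, hab j]
    exact mul_mem (ha j) (Subalgebra.prod_mem _ fun k _ => hb k)
  set s : L := (∏ k, b k) / algebraMap K L (X.ξ 0) with hs
  have hs0 : s ≠ 0 := div_ne_zero hH0 hx0
  have hbound : ∀ (w' : DVal L) (w : DVal K) (e' : ℕ), LiesOver w' w e' →
      (∀ f ∈ A.R, w'.Reg f) → e' * X.H w ≤ (w'.ord s : ℝ) := by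
    intro w' w e' ho hreg
    rw [Model.H, Lin_scale X.ξ X.ne ho, Lin_le_iff]
    intro j
    have hxj : algebraMap K L (X.ξ j) ≠ 0 := am_ne (X.ne j)
    have h1 := (hreg _ (hmem j)).resolve_left (mul_ne_zero (div_ne_zero hxj hx0) hH0)
    rw [w'.map_mul _ _ (div_ne_zero hxj hx0) hH0, w'.ord_div hxj hx0] at h1
    have h2 : w'.ord s = w'.ord (∏ k, b k) - w'.ord (algebraMap K L (X.ξ 0)) := w'.ord_div hH0 hx0
    have h3 : -(w'.ord (algebraMap K L (X.ξ j))) ≤ w'.ord s := by omega
    exact_mod_cast h3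
  have key : ∀ δ : ℝ, 0 < δ → 0 ≤ e * (D v - N v) + δ * ((v'.ord s : ℝ) - e * X.H v) := by
    intro δ hδ
    obtain ⟨P, hP, hPle, hPv⟩ := nef_touch hN hδ v
    obtain ⟨P', hP', hPP'⟩ := prin_ext (L := L) hP
    have hE : P0 + δ • dv s - P' ∈ Prin L :=
      (Prin L).sub_mem ((Prin L).add_mem hP0 ((Prin L).smul_mem _ (dv_mem hs0))) hP'
    have h1 := real_hartogs hp hE (fun w' hw' hw'p => ?_) v' hthr
    · simp only [Pi.sub_apply, Pi.add_apply, Pi.smul_apply, smul_eq_mul, dv] at h1
      rw [← hP0D v' v e hover hthr, hPP' v' v e hover, hPv] at h1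
      linarith
    · obtain ⟨w, e', he', hw⟩ := Pool.Agent.TH969.C8_EXT.exists_restrict (F := K) w'
      have ho : LiesOver w' w e' := ⟨he', hw⟩
      have he0' : (0 : ℝ) < e' := by exact_mod_cast he'
      simp only [Pi.sub_apply, Pi.add_apply, Pi.smul_apply, smul_eq_mul, dv]
      rw [← hP0D w' w e' ho hw'p, hPP' w' w e' ho]
      have h2 := hPle w
      have h3 := h w ⟨w', e', ho, i, hw'⟩
      have h4 := hbound w' w e' ho hw'.1
      have h5 := mul_le_mul_of_nonneg_left h4 hδ.le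
      have h6 := mul_le_mul_of_nonneg_left h2 he0'.le
      have h7 := mul_le_mul_of_nonneg_left h3 he0'.le
      nlinarith
  by_contra hc
  push Not at hc
  set C : ℝ := (v'.ord s : ℝ) - e * X.H v with hC
  have hpos : 0 < e * (N v - D v) := mul_pos he0 (by linarith)
  have h1 := key (e * (N v - D v) / (2 * (|C| + 1))) (div_pos hpos (by positivity))
  have h2 : e * (N v - D v) / (2 * (|C| + 1)) * C ≤ e * (N v - D v) / 2 := by
    have h3 : e * (N v - D v) / (2 * (|C| + 1)) * C ≤
        e * (N v - D v) / (2 * (|C| + 1)) * (|C| + 1) :=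
      mul_le_mul_of_nonneg_left (by linarith [le_abs_self C])
        (div_nonneg hpos.le (by positivity))
    have h4 : e * (N v - D v) / (2 * (|C| + 1)) * (|C| + 1) = e * (N v - D v) / 2 := by
      have : |C| + 1 ≠ 0 := by positivity
      field_simp
    linarith
  linarith

end Pool.Agent.R888.Moi
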