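import Mathlib
import Pool.Agent.R888.Moi.Dom
import Pool.Agent.R888.Moi.Prime
import Pool.Agent.TH202.NegB

/-!
# The irrational class does not descend below the strict transform of `c = 0`
-/

set_option autoImplicit false

namespace Pool.Agent.R888.Moi

open Pool.Agent.H436R3.Fol Pool.Agent.TH202 MvPolynomial

variable {K L : Type} [Field K] [Algebra ℂ K] [Field L] [Algebra ℂ L] [Algebra K L]
  [IsScalarTower ℂ K L] [FiniteDimensional K L]

/-- The integer `max (0, -v'(y_k))` for the valuations of the extension. -/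
noncomputable def ThL {d : Dat K} (s : Sq d) (k : ℕ) (v' : DVal L) : ℤ :=
  max 0 (-v'.ord (algebraMap K L (s.y k)))

omit [IsScalarTower ℂ K L] [FiniteDimensional K L] in
theorem Th_cast' {d : Dat K} (s : Sq d) (k : ℕ) {v' : DVal L} {v : DVal K} {e : ℕ}
    (he : LiesOver v' v e) : e * Th s k v = (ThL s k v' : ℝ) := by
  have he0 : (0 : ℝ) < e := by exact_mod_cast he.1
  rw [Pool.Agent.TH573.C8_NEFA.Th_eq, ThL, he.2 _ (s.y_ne k), mul_max_of_nonneg _ _ he0.le]
  push_cast
  rw [mul_zero, mul_neg]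

theorem b_aux {d : Dat K} (s : Sq d) (vS : DVal K) (hvS : IsS d vS) {A : NormalAffine L}
    {p : Ideal A.R} (hp : p.IsPrime) (N : DVal K → ℝ)
    (hN : ∃ P ∈ Prin L, ∀ (v' : DVal L) (v : DVal K) (e : ℕ), LiesOver v' v e → Thr A p v' →
      e * N v = P v') (heq : ∀ v, N v = bet s v) (v' : DVal L) (e0 : ℕ)
    (hover : LiesOver v' vS e0) (hthr : Thr A p v') (hx : ∀ s : A.R, s ∈ p ↔ v'.Pos (s : L)) :
    IsLocalRing' A.R v' := by
  have hv' := hover.2
  have hreg := ((thr_iff hp v').1 hthr).1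
  obtain ⟨P, hP, hPN⟩ := hN
  obtain ⟨m, r, g, hg, hPg⟩ := exists_rep hP
  obtain ⟨ℓ, hℓ1, hℓk⟩ := exists_functional
  have hya : algebraMap K L (s.y 2) ≠ 0 := am_ne (s.y_ne _)
  have hyb : algebraMap K L (s.y 1) ≠ 0 := am_ne (s.y_ne _)
  -- the rational identity
  have hrat : ∀ v : DVal L, Thr A p v →
      ((ThL s 2 v + ThL s 1 v : ℤ) : ℚ) = ∑ i, ℓ (r i) * (v.ord (g i) : ℚ) := by
    intro v hv
    obtain ⟨w, e, he, hw⟩ := Pool.Agent.TH969.C8_EXT.exists_restrict (F := K) v
    have ho : LiesOver v w e := ⟨he, hw⟩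
    have h1 : e * bet s w = ∑ i, r i * (v.ord (g i) : ℝ) := by
      rw [← heq w, hPN v w e ho hv, hPg]
    have h2 : e * bet s w = ((ThL s 3 v + ThL s 2 v : ℤ) : ℚ) • (1 : ℝ)
        - ((ThL s 2 v + ThL s 1 v : ℤ) : ℚ) • kap := by
      change e * ((Th s 3 w + Th s 2 w) - kap * (Th s 2 w + Th s 1 w)) = _
      have c1 := Th_cast' s 1 ho
      have c2 := Th_cast' s 2 ho
      have c3 := Th_cast' s 3 ho
      rw [Rat.smul_def, Rat.smul_def]
      push_cast
      rw [← c1, ← c2, ← c3]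
      ring
    have h3 : (∑ i, r i * (v.ord (g i) : ℝ)) = ∑ i, ((v.ord (g i) : ℤ) : ℚ) • r i := by
      refine Finset.sum_congr rfl fun i _ => ?_
      rw [Algebra.smul_def, mul_comm]
      simp
    rw [h2, h3] at h1
    have h4 := congrArg ℓ h1
    rw [map_sub, map_smul, map_smul, hℓ1, hℓk, map_sum] at h4
    simp only [map_smul, smul_eq_mul, mul_zero, mul_neg, mul_one, zero_sub, neg_neg] at h4
    rw [h4]
    exact Finset.sum_congr rfl fun i _ => mul_comm _ _
  -- common denominator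
  obtain ⟨M, hM, e, he⟩ : ∃ M : ℕ, 0 < M ∧ ∃ e : Fin m → ℤ, ∀ i, (M : ℚ) * ℓ (r i) = e i := by
    refine ⟨∏ i, (ℓ (r i)).den, Finset.prod_pos fun i _ => (ℓ (r i)).den_pos,
      fun i => (∏ j ∈ Finset.univ.erase i, ((ℓ (r j)).den : ℤ)) * (ℓ (r i)).num, fun i => ?_⟩
    rw [← Finset.prod_erase_mul Finset.univ (fun j => (ℓ (r j)).den) (Finset.mem_univ i)]
    push_cast
    rw [mul_assoc, Rat.den_mul_eq_num]
  set G : L := ∏ i, g i ^ e i with hG
  have hG0 : G ≠ 0 := Finset.prod_ne_zero_iff.2 fun i _ => zpow_ne_zero _ (hg i)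
  have hGord : ∀ v : DVal L, Thr A p v → v.ord G = M * (ThL s 2 v + ThL s 1 v) := by
    intro v hv
    have hord : v.ord G = ∑ i, v.ord (g i) * e i := by
      rw [hG, v.ord_prod _ _ fun i _ => zpow_ne_zero _ (hg i)]
      refine Finset.sum_congr rfl fun i _ => ?_
      rw [v.ord_zpow (hg i), mul_comm]
    rw [hord]
    have h1 := hrat v hv
    have h2 : ((∑ i, v.ord (g i) * e i : ℤ) : ℚ) =
        (((M : ℤ) * (ThL s 2 v + ThL s 1 v) : ℤ) : ℚ) := by
      push_cast at h1 ⊢
      rw [h1, Finset.mul_sum]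
      refine Finset.sum_congr rfl fun i _ => ?_
      rw [← he i]
      ring
    exact_mod_cast h2
  have hT0 : ∀ k (v : DVal L), 0 ≤ ThL s k v := fun k v => le_max_left _ _
  have hT1 : ∀ k (v : DVal L), -v.ord (algebraMap K L (s.y k)) ≤ ThL s k v :=
    fun k v => le_max_right _ _
  have hmem : ∀ F : L, F ≠ 0 → (∀ v : DVal L, Thr A p v → 0 ≤ v.ord F) → Mem A p F := by
    intro F _ hF
    refine Pool.Agent.TH670.C8_HARTP.hartogs_local A.fg A.frac A.normal p hp ?_
    intro w hw hwx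
    right
    exact hF w ((thr_iff hp w).2 ⟨hw.1, hwx⟩)
  have hMZ : (0 : ℤ) < M := by exact_mod_cast hM
  have hyv : ∀ k, v'.ord (algebraMap K L (s.y k)) = 0 := by
    intro k
    rw [hv' _ (s.y_ne k), s.triv vS hvS, mul_zero]
  have hGS : v'.ord G = 0 := by
    rw [hGord v' hthr, ThL, ThL, hyv, hyv]
    simp
  -- units of the local ring
  have hunit : ∀ F : L, F ≠ 0 → Mem A p F → v'.ord F = 0 → Mem A p F⁻¹ := by
    intro F hF0 hF hFS
    obtain ⟨t, ht, htF⟩ := hF
    have ht0 : (t : L) ≠ 0 := fun h0 => ht ((hx t).2 (Or.inl h0))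
    have hts : v'.ord (t : L) = 0 := by
      have h1 := v'.ord_nonneg ht0 (hreg _ t.2)
      have h2 : ¬ 0 < v'.ord (t : L) := fun h => ht ((hx t).2 (Or.inr h))
      omega
    have h3 : (⟨_, htF⟩ : A.R) ∉ p := by
      rw [hx]
      rintro (h | h)
      · exact mul_ne_zero ht0 hF0 h
      · change 0 < v'.ord ((t : L) * F) at h
        rw [v'.map_mul _ _ ht0 hF0, hts, hFS] at h
        exact lt_irrefl _ h
    have h4 := mem_mul hp (mem_of_R hp t.2) (mem_inv h3)
    have h5 : (t : L) * ((t : L) * F)⁻¹ = F⁻¹ := by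
      field_simp
    have h6 : ((⟨_, htF⟩ : A.R) : L) = (t : L) * F := rfl
    rwa [h6, h5] at h4
  have hGm : Mem A p G := by
    refine hmem G hG0 fun v hv => ?_
    rw [hGord v hv]
    exact mul_nonneg hMZ.le (add_nonneg (hT0 _ _) (hT0 _ _))
  have hGi : Mem A p G⁻¹ := hunit G hG0 hGm hGS
  have hpowmem : ∀ k, (k = 1 ∨ k = 2) → Mem A p (algebraMap K L (s.y k) ^ M) := by
    intro k hk
    have hyk : algebraMap K L (s.y k) ≠ 0 := am_ne (s.y_ne k)
    have h1 : Mem A p (algebraMap K L (s.y k) ^ M * G) := by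
      refine hmem _ (mul_ne_zero (pow_ne_zero _ hyk) hG0) fun v hv => ?_
      rw [v.map_mul _ _ (pow_ne_zero _ hyk) hG0, v.ord_pow hyk, hGord v hv, ← mul_add]
      refine mul_nonneg hMZ.le ?_
      have h2 := hT1 k v
      have h3 := hT0 1 v
      have h4 := hT0 2 v
      rcases hk with rfl | rfl <;> omega
    have h2 := mem_mul hp h1 hGi
    rwa [mul_assoc, mul_inv_cancel₀ hG0, mul_one] at h2
  have hymem : ∀ k, (k = 1 ∨ k = 2) → Mem A p (algebraMap K L (s.y k)) := by
    intro k hk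
    refine mem_of_root' hp (Polynomial.X ^ M - Polynomial.C (algebraMap K L (s.y k) ^ M))
      (Polynomial.monic_X_pow_sub_C _ hM.ne') (fun j => ?_) (by simp)
    rw [Polynomial.coeff_sub, Polynomial.coeff_X_pow, Polynomial.coeff_C]
    have h1 : ∀ f g : L, Mem A p f → Mem A p g → Mem A p (f - g) := fun f g hf hg =>
      (loc hp).sub_mem hf hg
    apply h1
    · split_ifs
      · exact (loc hp).one_mem
      · exact (loc hp).zero_mem
    · split_ifs
      · exact hpowmem k hk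
      · exact (loc hp).zero_mem
  have ha : Mem A p (algebraMap K L d.a) := by
    have := hunit _ hya (hymem 2 (Or.inr rfl)) (hyv 2)
    rwa [s.y2, map_inv₀, inv_inv] at this
  have hb : Mem A p (algebraMap K L d.b) := by
    have := hunit _ hyb (hymem 1 (Or.inl rfl)) (hyv 1)
    rwa [s.y1, map_inv₀, inv_inv] at this
  have halg0 : ∀ f : K, IsAlgebraic (Algebra.adjoin ℂ (Set.range ![d.a, d.b, d.c])) f := by
    have h1 := s.alg 1 le_rfl
    rw [s.y1, s.y2, inv_inv, inv_inv] at h1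
    exact h1
  have hbas : IsTranscendenceBasis ℂ ![d.a, d.b, d.c] := by
    rw [d.ind.isTranscendenceBasis_iff_isAlgebraic]
    exact ⟨halg0⟩
  have hbas' : IsTranscendenceBasis ℂ (algebraMap K L ∘ ![d.a, d.b, d.c]) :=
    hbas.algebraMap_comp
  have hcomp : (algebraMap K L ∘ ![d.a, d.b, d.c]) =
      ![algebraMap K L d.a, algebraMap K L d.b, algebraMap K L d.c] := by
    funext j
    fin_cases j <;> rfl
  rw [hcomp] at hbas'
  refine primeOf' hp _ _ _ hbas'.1 hbas'.isAlgebraic.1 v' (fun q hq => ?_) hx hreg ha hb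
  have h1 : aeval ![algebraMap K L d.a, algebraMap K L d.b] q =
      algebraMap K L (aeval ![d.a, d.b] q) := by
    have h2 : ![algebraMap K L d.a, algebraMap K L d.b] =
        fun j => algebraMap K L (![d.a, d.b] j) := by
      funext j
      fin_cases j <;> rfl
    rw [h2]
    exact (MvPolynomial.aeval_algebraMap_apply _ _ _)
  have h3 : aeval ![d.a, d.b] q ≠ 0 := by
    have hab : AlgebraicIndependent ℂ ![d.a, d.b] := by
      rw [algebraicIndependent_iff]
      intro q hq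
      by_contra hq0
      have h1 := d.ind
      rw [algebraicIndependent_iff] at h1
      have h2 := h1 (rename (Fin.castSucc : Fin 2 → Fin 3) q) (by
        rw [aeval_rename]
        have h7 : (![d.a, d.b, d.c] ∘ (Fin.castSucc : Fin 2 → Fin 3)) = ![d.a, d.b] := by
          funext j
          fin_cases j <;> rfl
        rw [h7]
        exact hq)
      exact hq0 ((map_eq_zero_iff _ (rename_injective _ (Fin.castSucc_injective 2))).1 h2)
    intro h0
    rw [algebraicIndependent_iff] at hab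
    exact hq (hab q h0)
  rw [h1, hv' _ h3, hvS.1 q hq, mul_zero]

theorem b_step' {d : Dat K} (s : Sq d) (vS : DVal K)
    (hvS : IsS d vS) (Y : CompleteVar L) (N : DVal K → ℝ) (hN : IsRCarBelow Y N)
    (heq : ∀ v, N v = bet s v) : IsPrimeBelow Y vS := by
  obtain ⟨v', e0, he0, hv'⟩ := Pool.Agent.TH969.C8_EXT.exists_ext (Ω := L) vS
  obtain ⟨i0, p, hp, hthr, hx⟩ := exists_cen Y v'
  exact ⟨v', e0, ⟨he0, hv'⟩, i0, b_aux s vS hvS hp N (hN i0 p hp) heq v' e0 ⟨he0, hv'⟩ hthr hx⟩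

end Pool.Agent.R888.Moi
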