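import Mathlib
import Pool.Agent.TH202.Mod
import Pool.Agent.TH202.Ex
import Pool.Agent.TH126.C8_FG
import Pool.Agent.W497.Mld.Jac

/-!
# The canonical order exists at every divisorial valuation
-/

set_option autoImplicit false

namespace Pool.Agent.R888.Moi

open Pool.Agent.H436R3.Fol Pool.Agent.TH202 MvPolynomial

variable {K : Type} [Field K] [Algebra ℂ K]

theorem frac_of_local {S : Subalgebra ℂ K} {v : DVal K} (hv : IsLocalRing' S v) (f : K) :
    ∃ a b : K, a ∈ S ∧ b ∈ S ∧ b ≠ 0 ∧ f * b = a := by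
  by_cases hf : f = 0
  · exact ⟨0, 1, zero_mem _, one_mem _, one_ne_zero, by rw [hf, zero_mul]⟩
  rcases le_total 0 (v.ord f) with h | h
  · obtain ⟨a, b, ha, hb, hb0, -, hab⟩ := hv.2 f (Or.inr h)
    exact ⟨a, b, ha, hb, hb0, hab⟩
  · obtain ⟨a, b, ha, hb, hb0, -, hab⟩ := hv.2 f⁻¹ (Or.inr (by rw [v.ord_inv hf]; omega))
    have ha0 : a ≠ 0 := by rw [← hab]; exact mul_ne_zero (inv_ne_zero hf) hb0
    refine ⟨b, a, hb, ha, ha0, ?_⟩
    rw [← hab, ← mul_assoc, mul_inv_cancel₀ hf, one_mul]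

/-- The normal affine variety given by the integral closure of a finitely generated algebra. -/
theorem exists_over [Algebra.EssFiniteType ℂ K] {S : Subalgebra ℂ K} (hS : S.FG) {v : DVal K}
    (hv : IsLocalRing' S v) : ∃ X : NormalAffine K, IsDivisorOver X v := by
  have halg : ∀ f : K, IsAlgebraic S f := by
    intro f
    obtain ⟨a, b, ha, hb, hb0, hab⟩ := frac_of_local hv f
    refine ⟨Polynomial.C (⟨b, hb⟩ : S) * Polynomial.X - Polynomial.C (⟨a, ha⟩ : S), ?_, ?_⟩
    · intro h0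
      have h1 := congrArg (fun q : Polynomial S => q.coeff 1) h0
      simp at h1
      exact hb0 (congrArg Subtype.val h1)
    · simp only [map_sub, map_mul, Polynomial.aeval_C, Polynomial.aeval_X]
      change b * f - a = 0
      rw [← hab]
      ring
  let R : Subalgebra ℂ K := (integralClosure S K).restrictScalars ℂ
  have hR : ∀ f, f ∈ R ↔ IsIntegral S f := fun f => Iff.rfl
  have hSR : S ≤ R := fun f hf => isIntegral_algebraMap (R := S) (x := (⟨f, hf⟩ : S))
  have hfg : R.FG := Pool.Agent.TH126.C8_FG.integralClosure_fg S hS halg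
  refine ⟨⟨R, hfg, fun f => ?_, fun f hf => ?_⟩, R, hfg, le_rfl, ?_, ?_⟩
  · obtain ⟨a, b, ha, hb, hb0, hab⟩ := frac_of_local hv f
    exact ⟨a, b, hSR ha, hSR hb, hb0, hab⟩
  · have h1 : IsIntegral (integralClosure S K) f := hf
    exact isIntegral_trans f h1
  · intro f hf
    exact reg_of_isIntegral v hv.1 ((hR f).1 hf)
  · intro f hf
    obtain ⟨a, b, ha, hb, hb0, hb1, hab⟩ := hv.2 f hf
    exact ⟨a, b, hSR ha, hSR hb, hb0, hb1, hab⟩

/-- The canonical order exists at every divisorial valuation. -/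
theorem exists_can [Algebra.EssFiniteType ℂ K] (d : Dat K) (T : Foliation K 3) (hT : IsPd d T)
    (v : DVal K) (hv : ∃ S : Subalgebra ℂ K, S.FG ∧ IsLocalRing' S v) :
    ∃ n : ℤ, IsCanOrd T v n := by
  obtain ⟨S, hS, hSv⟩ := hv
  obtain ⟨X, hX⟩ := exists_over hS hSv
  have hdet : (Matrix.of fun (j k : Fin 3) => T.D j (![d.a, d.b, d.c] k)).det = 1 := by
    have : (Matrix.of fun (j k : Fin 3) => T.D j (![d.a, d.b, d.c] k)) = 1 := by
      ext j k
      rw [Matrix.of_apply, hT, Matrix.one_apply]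
    rw [this, Matrix.det_one]
  obtain ⟨n, hn, -⟩ := exists_isCanOrd v hX T
    (c := v.ord d.a + v.ord d.b + v.ord d.c - 1) fun A hA0 hA => by
      have h0 : ∀ k : Fin 3, ![d.a, d.b, d.c] k ≠ 0 := by
        intro k
        fin_cases k
        · exact d.a_ne
        · exact d.b_ne
        · exact d.c_ne
      have h1 := Pool.Agent.W497.Mld.gji v T.D A hA0 hA ![d.a, d.b, d.c] h0
        (by rw [hdet]; exact one_ne_zero)
      rw [hdet, v.ord_one, Fin.sum_univ_three] at h1
      simp only [Matrix.cons_val_zero, Matrix.cons_val_one, Matrix.cons_val] at h1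
      omega
  exact ⟨n, hn⟩

end Pool.Agent.R888.Moi
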