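import Mathlib
import Pool.Agent.R888.Moi.BStep
import Pool.Agent.TH202.Neg
import Pool.Agent.Y181.WLC

/-!
# There is no weak log canonical model
-/

set_option autoImplicit false

namespace Pool.Agent.R888.Moi

open Pool.Agent.H436R3.Fol Pool.Agent.TH202 MvPolynomial

variable {K : Type} [Field K] [Algebra ℂ K] [Algebra.EssFiniteType ℂ K]

theorem no_model' {d : Dat K} (h : XiAlg d) (s : Sq d)
    (T : Foliation K 3) (hT : IsPd d T) {ε : ℝ} (hε : 0 < ε)
    (L : Type) [Field L] [Algebra ℂ L] [Algebra K L] [IsScalarTower ℂ K L] [FiniteDimensional K L]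
    (Y : CompleteVar L) (E : DVal K → ℝ) :
    ¬ IsWeakModelBelow T (Xd d h) (Bd d ε) (bt s) (Dd s ε) Y E := by
  rintro ⟨hprime, hadj, ⟨W, hnef⟩, hdisc⟩
  obtain ⟨vS, hvS, hvc, huniq⟩ := Pool.Agent.TH189.C8_VS.exists_vS d
  set X := Xd d h with hX
  set N : DVal K → ℝ := E - pr d with hN
  have hNnef : IsNef W N := by
    refine ⟨hnef.1.sub (rcar_of_prin (pr_mem d)), fun δ hδ => ?_⟩
    obtain ⟨F, hF, P, hP, hFP⟩ := hnef.2 δ hδ
    refine ⟨F, hF, P - pr d, (Prin K).sub_mem hP (pr_mem d), fun v => ?_⟩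
    simp only [hN, Pi.sub_apply]
    linarith [hFP v]
  have hNR : IsRCarBelow Y N := by
    intro i p hp
    obtain ⟨P, hP, hPE⟩ := hadj.1 i p hp
    obtain ⟨P', hP', hPP'⟩ := prin_ext (L := L) (pr_mem d)
    refine ⟨P - P', (Prin L).sub_mem hP hP', fun v' v e ho ht => ?_⟩
    simp only [hN, Pi.sub_apply]
    rw [← hPE v' v e ho ht, hPP' v' v e ho]
    ring
  have hNY : ∀ w, IsPrimeBelow Y w → N w = ε * Sb d w + bet s w := by
    intro w hw
    obtain ⟨⟨n, hn, hnf⟩, _⟩ := Pool.Agent.TH796.C8_XM2.prime_X d h T hT w (hprime w hw)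
    have h1 := hadj.2 w hw n hn
    have h2 : (w.ord d.c : ℝ) = ps (w.ord d.c) - ng (w.ord d.c) := by
      rw [ps_eq]
      ring
    simp only [hN, Pi.sub_apply, h1, hnf, Bd, bt, pr, Pi.add_apply, Pi.smul_apply, smul_eq_mul, dv,
      Sb]
    rw [h2]
    ring
  have hNX : ∀ w, IsPrimeOn X w → N w ≤ ε * Sb d w + bet s w := by
    intro w hw
    by_cases hwY : IsPrimeBelow Y w
    · exact (hNY w hwY).le
    · have h1 := hdisc w hw hwY
      rw [Dd_eq] at h1
      simp only [hN, Pi.sub_apply]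
      linarith
  have hbet := Pool.Agent.TH246.C8_POS.bet_nef h s
  have hge : ∀ v, bet s v ≤ N v := by
    refine dom' hbet hNR fun w hw => ?_
    rw [hNY w hw]
    have := mul_nonneg hε.le (Sb_nonneg d w)
    linarith
  have hyS : ∀ j, vS.ord (s.y j) = 0 := s.triv vS hvS
  have hAkS : ∀ j, Ak s j vS = 0 := by
    intro j
    change Th s (j + 1) vS + Th s j vS = 0
    rw [Pool.Agent.TH573.C8_NEFA.Th_eq, Pool.Agent.TH573.C8_NEFA.Th_eq, hyS, hyS]
    simp
  have hbetS : bet s vS = 0 := by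
    change Ak s 2 vS - kap * Ak s 1 vS = 0
    rw [hAkS, hAkS]
    ring
  have haS : vS.ord d.a = 0 := by
    have := hvS.1 (MvPolynomial.X 0) (X_ne_zero _)
    rwa [aeval_X] at this
  have hSbS : Sb d vS = 1 := by
    have h1 : mn d vS = 0 := by
      rw [mn, haS, Int.cast_zero]
      exact max_eq_left (min_le_left _ _)
    rw [Sb, h1, hvc, ps]
    simp
  have hSbR := rcar_Sb d h
  have hcase : ∀ w, IsPrimeOn X w → N w ≤ bet s w + N vS * Sb d w := by
    intro w hw
    by_cases h0 : Sb d w = 0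
    · have h1 := hNX w hw
      rw [h0] at h1 ⊢
      linarith
    · have h1 := (Pool.Agent.TH796.C8_XM2.prime_X d h T hT w hw).2 h0
      have h2 := huniq w h1
      rw [rcar_congr hNnef.1 h2, rcar_congr hbet.1 h2, rcar_congr hSbR h2, hbetS, hSbS]
      linarith
  have hle := c_step h s vS hvS hvc huniq W N hNnef (N vS) rfl hcase
  have hge' := hge vS
  rw [hbetS] at hge'
  have hzero : N vS = 0 := le_antisymm hle hge'
  have hle' : ∀ v, N v ≤ bet s v := by
    refine dom hNnef hbet.1 fun w hw => ?_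
    have := hcase w hw
    rw [hzero] at this
    linarith
  have hYS := b_step' s vS hvS Y N hNR fun v => le_antisymm (hle' v) (hge v)
  have hfin := hNY vS hYS
  rw [hzero, hbetS, hSbS] at hfin
  linarith

theorem no_model_proj {d : Dat K} (h : XiAlg d) (s : Sq d)
    (T : Foliation K 3) (hT : IsPd d T) {ε : ℝ} (hε : 0 < ε)
    (Y : Model K) (E : DVal K → ℝ) :
    ¬ Pool.Agent.Y181.IsWeakLCModel T (Xd d h) (Bd d ε) (bt s) (Dd s ε) Y E := by
  rintro ⟨hprime, hadj, hnef, hdisc⟩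
  obtain ⟨vS, hvS, hvc, huniq⟩ := Pool.Agent.TH189.C8_VS.exists_vS d
  set X := Xd d h with hX
  set N : DVal K → ℝ := E - pr d with hN
  have hNnef : IsNef Y N := by
    refine ⟨hnef.1.sub (rcar_of_prin (pr_mem d)), fun δ hδ => ?_⟩
    obtain ⟨F, hF, P, hP, hFP⟩ := hnef.2 δ hδ
    refine ⟨F, hF, P - pr d, (Prin K).sub_mem hP (pr_mem d), fun v => ?_⟩
    simp only [hN, Pi.sub_apply]
    linarith [hFP v]
  have hNY : ∀ w, IsPrimeOn Y w → N w = ε * Sb d w + bet s w := by
    intro w hw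
    obtain ⟨⟨n, hn, hnf⟩, _⟩ := Pool.Agent.TH796.C8_XM2.prime_X d h T hT w (hprime w hw)
    have h1 := hadj.2 w hw n hn
    have h2 : (w.ord d.c : ℝ) = ps (w.ord d.c) - ng (w.ord d.c) := by
      rw [ps_eq]
      ring
    simp only [hN, Pi.sub_apply, h1, hnf, Bd, bt, pr, Pi.add_apply, Pi.smul_apply, smul_eq_mul, dv,
      Sb]
    rw [h2]
    ring
  have hNX : ∀ w, IsPrimeOn X w → N w ≤ ε * Sb d w + bet s w := by
    intro w hw
    by_cases hwY : IsPrimeOn Y w
    · exact (hNY w hwY).le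
    · have h1 := hdisc w hw hwY
      rw [Dd_eq] at h1
      simp only [hN, Pi.sub_apply]
      linarith
  have hbet := Pool.Agent.TH246.C8_POS.bet_nef h s
  have hge : ∀ v, bet s v ≤ N v := by
    refine dom hbet hNnef.1 fun w hw => ?_
    rw [hNY w hw]
    have := mul_nonneg hε.le (Sb_nonneg d w)
    linarith
  have hyS : ∀ j, vS.ord (s.y j) = 0 := s.triv vS hvS
  have hAkS : ∀ j, Ak s j vS = 0 := by
    intro j
    change Th s (j + 1) vS + Th s j vS = 0
    rw [Pool.Agent.TH573.C8_NEFA.Th_eq, Pool.Agent.TH573.C8_NEFA.Th_eq, hyS, hyS]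
    simp
  have hbetS : bet s vS = 0 := by
    change Ak s 2 vS - kap * Ak s 1 vS = 0
    rw [hAkS, hAkS]
    ring
  have haS : vS.ord d.a = 0 := by
    have := hvS.1 (MvPolynomial.X 0) (X_ne_zero _)
    rwa [aeval_X] at this
  have hSbS : Sb d vS = 1 := by
    have h1 : mn d vS = 0 := by
      rw [mn, haS, Int.cast_zero]
      exact max_eq_left (min_le_left _ _)
    rw [Sb, h1, hvc, ps]
    simp
  have hSbR := rcar_Sb d h
  have hcase : ∀ w, IsPrimeOn X w → N w ≤ bet s w + N vS * Sb d w := by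
    intro w hw
    by_cases h0 : Sb d w = 0
    · have h1 := hNX w hw
      rw [h0] at h1 ⊢
      linarith
    · have h1 := (Pool.Agent.TH796.C8_XM2.prime_X d h T hT w hw).2 h0
      have h2 := huniq w h1
      rw [rcar_congr hNnef.1 h2, rcar_congr hbet.1 h2, rcar_congr hSbR h2, hbetS, hSbS]
      linarith
  have hle := c_step h s vS hvS hvc huniq Y N hNnef (N vS) rfl hcase
  have hge' := hge vS
  rw [hbetS] at hge'
  have hzero : N vS = 0 := le_antisymm hle hge'
  have hle' : ∀ v, N v ≤ bet s v := by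
    refine dom hNnef hbet.1 fun w hw => ?_
    have := hcase w hw
    rw [hzero] at this
    linarith
  have hYS := b_step s vS hvS Y N hNnef.1 fun v => le_antisymm (hle' v) (hge v)
  have hfin := hNY vS hYS
  rw [hzero, hbetS, hSbS] at hfin
  linarith

end Pool.Agent.R888.Moi
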